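import Pool.Agent.Y968.KI.Lg

/-!
# Project KI: the Taylor expansion of the infinite product (KI-TAYLOR)
-/

set_option autoImplicit false

open scoped Topology
open Filter

namespace Pool.Agent.Y968.KI

open Pool.Agent.Y80.KI

section csum

variable (A : ℕ → ℤ) (C : ℝ)

theorem term_le (hA : ∀ n, |(A n : ℝ)| ≤ C * 4 ^ n) (u : ℂ) (n : ℕ) :
    ‖(A n : ℂ) * u ^ n‖ ≤ C * (4 * ‖u‖) ^ n := by
  rw [norm_mul, norm_pow, mul_pow, ← mul_assoc]
  refine mul_le_mul_of_nonneg_right ?_ (by positivity)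
  have h : ‖(A n : ℂ)‖ = |(A n : ℝ)| := by
    rw [Complex.norm_intCast]
  rw [h]
  exact hA n

theorem C_nonneg (hA : ∀ n, |(A n : ℝ)| ≤ C * 4 ^ n) : 0 ≤ C := by
  have h := hA 0
  rw [pow_zero, mul_one] at h
  exact le_trans (abs_nonneg _) h

theorem geom_le (u : ℂ) (hu : ‖u‖ ≤ 1 / 8) (N : ℕ) :
    HasSum (fun n : ℕ => (4 * ‖u‖) ^ (n + N)) ((4 * ‖u‖) ^ N * (1 - 4 * ‖u‖)⁻¹) ∧
      (1 - 4 * ‖u‖)⁻¹ ≤ 2 := by
  have h0 : 0 ≤ 4 * ‖u‖ := by positivity
  have h1 : 4 * ‖u‖ ≤ 1 / 2 := by linarith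
  constructor
  · have h2 := (hasSum_geometric_of_lt_one h0 (by linarith)).mul_left ((4 * ‖u‖) ^ N)
    refine h2.congr_fun (fun n => ?_)
    rw [pow_add, mul_comm]
  · rw [inv_le_comm₀ (by linarith) (by norm_num)]
    linarith

theorem csum_summable (hA : ∀ n, |(A n : ℝ)| ≤ C * 4 ^ n) (u : ℂ) (hu : ‖u‖ ≤ 1 / 8) :
    Summable (fun n : ℕ => (A (n + 1) : ℂ) * u ^ (n + 1)) := by
  refine Summable.of_norm_bounded (g := fun n => C * (4 * ‖u‖) ^ (n + 1)) ?_
    (fun n => term_le A C hA u (n + 1))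
  exact (geom_le u hu 1).1.summable.mul_left C

theorem csum_rem (hA : ∀ n, |(A n : ℝ)| ≤ C * 4 ^ n) (N : ℕ) (u : ℂ) (hu : ‖u‖ ≤ 1 / 8) :
    ‖csum A u - ∑ n ∈ Finset.Icc 1 N, (A n : ℂ) * u ^ n‖ ≤ 2 * C * 4 ^ (N + 1) * ‖u‖ ^ (N + 1) := by
  have hs := csum_summable A C hA u hu
  have hC := C_nonneg A C hA
  have h1 := hs.sum_add_tsum_nat_add N
  have h2 : ∑ n ∈ Finset.Icc 1 N, (A n : ℂ) * u ^ n =
      ∑ n ∈ Finset.range N, (A (n + 1) : ℂ) * u ^ (n + 1) := by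
    rw [Finset.range_eq_Ico, Finset.sum_Ico_add' (fun n => (A n : ℂ) * u ^ n) 0 N 1]
    refine Finset.sum_congr ?_ (fun _ _ => rfl)
    ext n
    simp only [Finset.mem_Icc, Finset.mem_Ico]
    omega
  have h3 : csum A u - ∑ n ∈ Finset.Icc 1 N, (A n : ℂ) * u ^ n =
      ∑' n : ℕ, (A (n + N + 1) : ℂ) * u ^ (n + N + 1) := by
    rw [h2]
    unfold csum
    rw [← h1]
    ring
  rw [h3]
  have h4 := (geom_le u hu (N + 1)).1.mul_left C
  have h5 : ‖∑' n : ℕ, (A (n + N + 1) : ℂ) * u ^ (n + N + 1)‖ ≤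
      C * ((4 * ‖u‖) ^ (N + 1) * (1 - 4 * ‖u‖)⁻¹) :=
    tsum_of_norm_bounded h4 (fun n => by
      have := term_le A C hA u (n + (N + 1))
      exact this)
  refine le_trans h5 ?_
  have h6 := (geom_le u hu 1).2
  calc C * ((4 * ‖u‖) ^ (N + 1) * (1 - 4 * ‖u‖)⁻¹)
      ≤ C * ((4 * ‖u‖) ^ (N + 1) * 2) := by
        refine mul_le_mul_of_nonneg_left (mul_le_mul_of_nonneg_left h6 (by positivity)) hC
    _ = 2 * C * 4 ^ (N + 1) * ‖u‖ ^ (N + 1) := by rw [mul_pow]; ring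

theorem csum_le (hA : ∀ n, |(A n : ℝ)| ≤ C * 4 ^ n) (u : ℂ) (hu : ‖u‖ ≤ 1 / 8) :
    ‖csum A u‖ ≤ 8 * C * ‖u‖ := by
  have h := csum_rem A C hA 0 u hu
  simp only [Finset.Icc_eq_empty_of_lt Nat.zero_lt_one, Finset.sum_empty, sub_zero, zero_add,
    pow_one] at h
  linarith

theorem csum_diff (hA : ∀ n, |(A n : ℝ)| ≤ C * 4 ^ n) :
    DifferentiableOn ℂ (csum A) (Metric.ball 0 (1 / 8)) := by
  have hC := C_nonneg A C hA
  have h1 : Summable (fun n : ℕ => C * (1 / 2 : ℝ) ^ (n + 1)) :=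
    ((summable_nat_add_iff 1).2 (summable_geometric_of_lt_one (by norm_num)
      (by norm_num : (1 / 2 : ℝ) < 1))).mul_left C
  refine Complex.differentiableOn_tsum_of_summable_norm h1 (fun n => ?_) Metric.isOpen_ball
    (fun n u hu => ?_)
  · fun_prop
  · rw [mem_ball_zero_iff] at hu
    refine le_trans (term_le A C hA u (n + 1)) ?_
    refine mul_le_mul_of_nonneg_left ?_ hC
    exact pow_le_pow_left₀ (by positivity) (by linarith) _

end csum

theorem taylor {B ι : Type*} [NormedCommRing B] [NormedAlgebra ℂ B] [CompleteSpace B] [Fintype ι]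
    (z : ι → B) (hz : ∀ i, ‖z i‖ ≤ 1) (A : ℕ → ℤ) (C : ℝ) (hA : ∀ n, |(A n : ℝ)| ≤ C * 4 ^ n) :
    ∃ p : ℕ → B, (∀ N0 m, m ≤ N0 → PowerSeries.coeff m (fprod z A N0) = p m) ∧
      ∀ᶠ t in 𝓝 (0 : ℂ), HasSum (fun m => t ^ m • p m)
        (NormedSpace.exp (-∑' k : ℕ, (csum A (t ^ (k + 1)) / ((k : ℂ) + 1)) •
          ∑ i, z i ^ (k + 1))) := by
  letI : NormedAlgebra ℚ B := NormedAlgebra.restrictScalars ℚ ℂ B
  have hC := C_nonneg A C hA
  set card : ℝ := (Fintype.card ι : ℝ) with hcard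
  have hcard0 : 0 ≤ card := by positivity
  have hS : ∀ k : ℕ, ‖∑ i, z i ^ (k + 1)‖ ≤ card := by
    intro k
    calc ‖∑ i, z i ^ (k + 1)‖ ≤ ∑ i : ι, (1 : ℝ) := by
          refine norm_sum_le_of_le _ (fun i _ => ?_)
          exact le_trans (norm_pow_succ_le (z i) k) (pow_le_one₀ (norm_nonneg _) (hz i))
      _ = card := by
          rw [Finset.sum_const, Finset.card_univ, nsmul_eq_mul, mul_one]
  have hsmall : ∀ (t : ℂ) (k : ℕ), ‖t‖ < 1 / 8 → ‖t ^ (k + 1)‖ ≤ (1 / 8) ^ k * ‖t‖ ∧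
      ‖t ^ (k + 1)‖ < 1 / 8 := by
    intro t k ht
    have h1 : ‖t ^ (k + 1)‖ ≤ (1 / 8) ^ k * ‖t‖ := by
      rw [norm_pow, pow_succ]
      exact mul_le_mul_of_nonneg_right (pow_le_pow_left₀ (norm_nonneg t) ht.le k) (norm_nonneg t)
    refine ⟨h1, lt_of_le_of_lt h1 ?_⟩
    calc (1 / 8 : ℝ) ^ k * ‖t‖ ≤ 1 * ‖t‖ :=
          mul_le_mul_of_nonneg_right (pow_le_one₀ (by norm_num) (by norm_num)) (norm_nonneg t)
      _ < 1 / 8 := by rw [one_mul]; exact ht
  -- the function G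
  set g : ℕ → ℂ → B := fun k t => (csum A (t ^ (k + 1)) / ((k : ℂ) + 1)) • ∑ i, z i ^ (k + 1)
    with hg
  set G : ℂ → B := fun t => ∑' k : ℕ, g k t with hG
  have hgle : ∀ k t, ‖t‖ < 1 / 8 → ‖g k t‖ ≤ (8 * C * card * ‖t‖) * (1 / 8) ^ k := by
    intro k t ht
    obtain ⟨h1, h2⟩ := hsmall t k ht
    calc ‖g k t‖ ≤ ‖csum A (t ^ (k + 1)) / ((k : ℂ) + 1)‖ * ‖∑ i, z i ^ (k + 1)‖ :=
          norm_smul_le _ _
      _ ≤ (8 * C * ((1 / 8) ^ k * ‖t‖)) * card := by
          refine mul_le_mul ?_ (hS k) (norm_nonneg _) (by positivity)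
          rw [div_eq_mul_one_div, norm_mul]
          calc ‖csum A (t ^ (k + 1))‖ * ‖(1 : ℂ) / ((k : ℂ) + 1)‖
              ≤ (8 * C * ‖t ^ (k + 1)‖) * 1 :=
                mul_le_mul (csum_le A C hA _ h2.le) (norm_inv_succ k) (norm_nonneg _)
                  (by positivity)
            _ ≤ 8 * C * ((1 / 8) ^ k * ‖t‖) := by
                rw [mul_one]
                exact mul_le_mul_of_nonneg_left h1 (by positivity)
      _ = (8 * C * card * ‖t‖) * (1 / 8) ^ k := by ring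
  have hgeo : Summable (fun k : ℕ => (1 / 8 : ℝ) ^ k) :=
    summable_geometric_of_lt_one (by norm_num) (by norm_num)
  have hGsum : ∀ t, ‖t‖ < 1 / 8 → HasSum (fun k => g k t) (G t) := by
    intro t ht
    exact (Summable.of_norm_bounded (hgeo.mul_left (8 * C * card * ‖t‖))
      (fun k => hgle k t ht)).hasSum
  have hGdiff : DifferentiableOn ℂ G (Metric.ball 0 (1 / 8)) := by
    refine Complex.differentiableOn_tsum_of_summable_norm (hgeo.mul_left (8 * C * card * (1 / 8)))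
      (fun k => ?_) Metric.isOpen_ball (fun k t ht => ?_)
    · refine DifferentiableOn.smul_const ?_ _
      refine DifferentiableOn.div_const ?_ _
      refine (csum_diff A C hA).comp (by fun_prop) ?_
      intro t ht
      rw [mem_ball_zero_iff] at ht ⊢
      exact (hsmall t k ht).2
    · rw [mem_ball_zero_iff] at ht
      refine le_trans (hgle k t ht) ?_
      refine mul_le_mul_of_nonneg_right ?_ (by positivity)
      exact mul_le_mul_of_nonneg_left ht.le (by positivity)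
  have hball : Metric.ball (0 : ℂ) (1 / 8) ∈ 𝓝 (0 : ℂ) :=
    Metric.ball_mem_nhds _ (by norm_num)
  have hGan : AnalyticAt ℂ G 0 := hGdiff.analyticAt hball
  have hEan : AnalyticAt ℂ (fun t => NormedSpace.exp (-G t)) 0 :=
    AnalyticAt.fun_comp (f := fun t => -G t) (NormedSpace.exp_analytic (𝕂 := ℂ) (-G 0)) hGan.neg
  obtain ⟨a, ha⟩ := HasT.of_analytic hEan
  refine ⟨fun m => PowerSeries.coeff m a, ?_, ?_⟩
  · intro N0 m hm
    refine (HasT.fprod z A N0).coeff_eq ha (N0 + 1) ?_ m (Nat.lt_succ_of_le hm)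
    -- the remainder
    set Y : ℂ → B := fun t => ∑ n ∈ Finset.Icc 1 N0, ∑ i, A n • (-Lg (t ^ n • z i)) with hY
    set R : ℂ → B := fun t => G t + Y t with hR
    have hRle : ∀ t, ‖t‖ < 1 / 8 → ‖R t‖ ≤ (2 * C * 4 ^ (N0 + 1) * card * 2) * ‖t‖ ^ (N0 + 1) := by
      intro t ht
      have hLg : ∀ n ∈ Finset.Icc 1 N0, HasSum (fun k : ℕ => ∑ i,
          A n • -(((1 : ℂ) / ((k : ℂ) + 1)) • (t ^ n • z i) ^ (k + 1)))
          (∑ i, A n • (-Lg (t ^ n • z i))) := by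
        intro n hn
        refine hasSum_sum (fun i _ => ?_)
        have hw : ‖t ^ n • z i‖ < 1 := by
          obtain ⟨k, rfl⟩ : ∃ k, n = k + 1 := ⟨n - 1, by
            have := (Finset.mem_Icc.1 hn).1
            omega⟩
          calc ‖t ^ (k + 1) • z i‖ ≤ ‖t ^ (k + 1)‖ * ‖z i‖ := norm_smul_le _ _
            _ ≤ (1 / 8) * 1 := mul_le_mul (hsmall t k ht).2.le (hz i) (norm_nonneg _)
                (by norm_num)
            _ < 1 := by norm_num
        exact (hasSum_Lg _ hw).neg.const_smul (A n)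
      have hRsum := (hGsum t ht).add (hasSum_sum hLg)
      have hterm : ∀ k : ℕ, g k t + ∑ n ∈ Finset.Icc 1 N0, ∑ i,
          A n • -(((1 : ℂ) / ((k : ℂ) + 1)) • (t ^ n • z i) ^ (k + 1)) =
          ((csum A (t ^ (k + 1)) - ∑ n ∈ Finset.Icc 1 N0, (A n : ℂ) * (t ^ (k + 1)) ^ n) /
            ((k : ℂ) + 1)) • ∑ i, z i ^ (k + 1) := by
        intro k
        rw [sub_div, sub_smul, Finset.sum_div, Finset.sum_smul, sub_eq_add_neg,
          ← Finset.sum_neg_distrib]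
        congr 1
        refine Finset.sum_congr rfl (fun n _ => ?_)
        rw [Finset.smul_sum, ← Finset.sum_neg_distrib]
        refine Finset.sum_congr rfl (fun i _ => ?_)
        rw [smul_neg, smul_pow, smul_smul, ← Int.cast_smul_eq_zsmul ℂ (A n), smul_smul]
        congr 2
        rw [← pow_mul, ← pow_mul, mul_comm n (k + 1)]
        ring
      have hRsum' : HasSum (fun k : ℕ =>
          ((csum A (t ^ (k + 1)) - ∑ n ∈ Finset.Icc 1 N0, (A n : ℂ) * (t ^ (k + 1)) ^ n) /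
            ((k : ℂ) + 1)) • ∑ i, z i ^ (k + 1)) (R t) :=
        hRsum.congr_fun (fun k => (hterm k).symm)
      have hb : HasSum (fun k : ℕ => (2 * C * 4 ^ (N0 + 1) * card * ‖t‖ ^ (N0 + 1)) *
          (1 / 8 : ℝ) ^ k) ((2 * C * 4 ^ (N0 + 1) * card * ‖t‖ ^ (N0 + 1)) * (1 - 1 / 8)⁻¹) :=
        (hasSum_geometric_of_lt_one (by norm_num) (by norm_num)).mul_left _
      have hbound := hRsum'.norm_le_of_bounded hb (fun k => by
        obtain ⟨h1, h2⟩ := hsmall t k ht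
        calc ‖((csum A (t ^ (k + 1)) - ∑ n ∈ Finset.Icc 1 N0, (A n : ℂ) * (t ^ (k + 1)) ^ n) /
              ((k : ℂ) + 1)) • ∑ i, z i ^ (k + 1)‖
            ≤ ‖(csum A (t ^ (k + 1)) - ∑ n ∈ Finset.Icc 1 N0, (A n : ℂ) * (t ^ (k + 1)) ^ n) /
              ((k : ℂ) + 1)‖ * ‖∑ i, z i ^ (k + 1)‖ := norm_smul_le _ _
          _ ≤ (2 * C * 4 ^ (N0 + 1) * (‖t‖ ^ (N0 + 1) * (1 / 8) ^ k)) * card := by
              refine mul_le_mul ?_ (hS k) (norm_nonneg _) (by positivity)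
              rw [div_eq_mul_one_div, norm_mul]
              calc ‖csum A (t ^ (k + 1)) - ∑ n ∈ Finset.Icc 1 N0, (A n : ℂ) *
                    (t ^ (k + 1)) ^ n‖ * ‖(1 : ℂ) / ((k : ℂ) + 1)‖
                  ≤ (2 * C * 4 ^ (N0 + 1) * ‖t ^ (k + 1)‖ ^ (N0 + 1)) * 1 :=
                    mul_le_mul (csum_rem A C hA N0 _ h2.le) (norm_inv_succ k) (norm_nonneg _)
                      (by positivity)
                _ ≤ 2 * C * 4 ^ (N0 + 1) * (‖t‖ ^ (N0 + 1) * (1 / 8) ^ k) := by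
                    rw [mul_one]
                    refine mul_le_mul_of_nonneg_left ?_ (by positivity)
                    calc ‖t ^ (k + 1)‖ ^ (N0 + 1) ≤ ((1 / 8) ^ k * ‖t‖) ^ (N0 + 1) :=
                          pow_le_pow_left₀ (norm_nonneg _) h1 _
                      _ = ‖t‖ ^ (N0 + 1) * ((1 / 8) ^ k) ^ (N0 + 1) := by rw [mul_pow]; ring
                      _ ≤ ‖t‖ ^ (N0 + 1) * (1 / 8) ^ k := by
                          refine mul_le_mul_of_nonneg_left ?_ (by positivity)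
                          exact pow_le_of_le_one (by positivity)
                            (pow_le_one₀ (by norm_num) (by norm_num)) (Nat.succ_ne_zero _)
          _ = (2 * C * 4 ^ (N0 + 1) * card * ‖t‖ ^ (N0 + 1)) * (1 / 8 : ℝ) ^ k := by ring)
      refine le_trans hbound ?_
      have h9 : ((1 : ℝ) - 1 / 8)⁻¹ ≤ 2 := by norm_num
      calc (2 * C * 4 ^ (N0 + 1) * card * ‖t‖ ^ (N0 + 1)) * (1 - 1 / 8)⁻¹
          ≤ (2 * C * 4 ^ (N0 + 1) * card * ‖t‖ ^ (N0 + 1)) * 2 :=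
            mul_le_mul_of_nonneg_left h9 (by positivity)
        _ = (2 * C * 4 ^ (N0 + 1) * card * 2) * ‖t‖ ^ (N0 + 1) := by ring
    have hRO : R =O[𝓝 0] (fun t : ℂ => t ^ (N0 + 1)) := by
      refine Asymptotics.IsBigO.of_bound (2 * C * 4 ^ (N0 + 1) * card * 2) ?_
      filter_upwards [hball] with t ht
      rw [mem_ball_zero_iff] at ht
      rw [norm_pow]
      exact hRle t ht
    have hR0 : Tendsto R (𝓝 0) (𝓝 0) := by
      refine hRO.trans_tendsto ?_
      have : Tendsto (fun t : ℂ => t ^ (N0 + 1)) (𝓝 0) (𝓝 ((0 : ℂ) ^ (N0 + 1))) :=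
        (continuous_pow (N0 + 1)).tendsto 0
      rwa [zero_pow (Nat.succ_ne_zero _)] at this
    have hexpO : (fun t => NormedSpace.exp (R t) - 1) =O[𝓝 0] R := by
      have h1 := (hasFDerivAt_exp (𝕂 := ℂ) (x := (0 : B))).isBigO_sub
      have h2 := h1.comp_tendsto hR0
      simp only [Function.comp_def, NormedSpace.exp_zero, sub_zero] at h2
      exact h2
    have hEO : (fun t => NormedSpace.exp (-G t)) =O[𝓝 0] (fun _ => (1 : ℂ)) :=
      hEan.continuousAt.isBigO_one ℂ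
    have hprod := hEO.mul (hexpO.trans hRO)
    refine (hprod.congr (fun t => ?_) (fun t => ?_))
    · have h1 : Y t = -G t + R t := by
        rw [hR]
        simp
      have h2 : NormedSpace.exp (-G t) * NormedSpace.exp (R t) = NormedSpace.exp (Y t) := by
        rw [h1]
        exact (NormedSpace.exp_add (x := -G t) (y := R t)).symm
      calc NormedSpace.exp (-G t) * (NormedSpace.exp (R t) - 1)
          = NormedSpace.exp (-G t) * NormedSpace.exp (R t) - NormedSpace.exp (-G t) := by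
            rw [mul_sub, mul_one]
        _ = NormedSpace.exp (Y t) - NormedSpace.exp (-G t) := by rw [h2]
    · rw [one_mul]
  · unfold HasT at ha
    filter_upwards [ha] with t ht
    exact ht.2

end Pool.Agent.Y968.KI
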