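import Mathlib

/-!
# Project KI: Taylor expansions with coefficients in a Banach algebra
-/

set_option autoImplicit false

open scoped Topology
open Filter

namespace Pool.Agent.Y968.KI

variable {B : Type*} [NormedCommRing B] [NormedAlgebra ℂ B]

/-- Taylor expansion at the origin -/
def HasT (f : ℂ → B) (a : PowerSeries B) : Prop :=
  ∀ᶠ t in 𝓝 (0 : ℂ), Summable (fun m => ‖t ^ m • PowerSeries.coeff m a‖) ∧
    HasSum (fun m => t ^ m • PowerSeries.coeff m a) (f t)

theorem HasT.congr {f g : ℂ → B} {a : PowerSeries B} (h : HasT f a) (hfg : f =ᶠ[𝓝 0] g) :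
    HasT g a := by
  unfold HasT at h ⊢
  filter_upwards [h, hfg] with t ht h1
  rw [← h1]
  exact ht

theorem HasT.of_analytic [CompleteSpace B] {f : ℂ → B} (hf : AnalyticAt ℂ f 0) :
    ∃ a, HasT f a := by
  obtain ⟨p, r, hp⟩ := hf
  refine ⟨PowerSeries.mk fun n => p.coeff n, ?_⟩
  unfold HasT
  filter_upwards [Metric.eball_mem_nhds (0 : ℂ) hp.r_pos] with t ht
  have h1 := hp.hasSum ht
  have h2 := p.summable_norm_apply (Metric.eball_subset_eball hp.r_le ht)
  simp only [PowerSeries.coeff_mk]
  simp only [FormalMultilinearSeries.apply_eq_pow_smul_coeff, zero_add] at h1 h2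
  exact ⟨h2, h1⟩

theorem HasT.one : HasT (fun _ => (1 : B)) 1 := by
  refine Eventually.of_forall (fun t => ?_)
  have h1 : ∀ m, m ≠ 0 → t ^ m • PowerSeries.coeff m (1 : PowerSeries B) = 0 := by
    intro m hm
    rw [PowerSeries.coeff_one, if_neg hm, smul_zero]
  constructor
  · refine summable_of_ne_finset_zero (s := {0}) (fun m hm => ?_)
    rw [h1 m (by simpa using hm), norm_zero]
  · have h2 := hasSum_single (f := fun m => t ^ m • PowerSeries.coeff m (1 : PowerSeries B)) 0
      (fun m hm => h1 m hm)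
    simpa using h2

theorem HasT.mul [CompleteSpace B] {f g : ℂ → B} {a b : PowerSeries B} (hf : HasT f a)
    (hg : HasT g b) : HasT (fun t => f t * g t) (a * b) := by
  unfold HasT at hf hg ⊢
  filter_upwards [hf, hg] with t ⟨h1, h2⟩ ⟨h3, h4⟩
  have h5 : ∀ m, t ^ m • PowerSeries.coeff m (a * b) =
      ∑ kl ∈ Finset.HasAntidiagonal.antidiagonal m, (t ^ kl.1 • PowerSeries.coeff kl.1 a) *
        (t ^ kl.2 • PowerSeries.coeff kl.2 b) := by
    intro m
    rw [PowerSeries.coeff_mul, Finset.smul_sum]
    refine Finset.sum_congr rfl (fun kl hkl => ?_)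
    rw [smul_mul_smul_comm, ← pow_add, Finset.HasAntidiagonal.mem_antidiagonal.1 hkl]
  have h6 := summable_norm_sum_mul_antidiagonal_of_summable_norm h1 h3
  have h7 := tsum_mul_tsum_eq_tsum_sum_antidiagonal_of_summable_norm h1 h3
  rw [h2.tsum_eq, h4.tsum_eq] at h7
  simp only [h5]
  refine ⟨h6, ?_⟩
  rw [h7]
  exact h6.of_norm.hasSum

theorem HasT.pow [CompleteSpace B] {f : ℂ → B} {a : PowerSeries B} (hf : HasT f a) (n : ℕ) :
    HasT (fun t => f t ^ n) (a ^ n) := by
  induction n with
  | zero => simpa using HasT.one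
  | succ n ih =>
    simp only [pow_succ]
    exact ih.mul hf

theorem HasT.prod [CompleteSpace B] {κ : Type*} (s : Finset κ) {f : κ → ℂ → B}
    {a : κ → PowerSeries B} (hf : ∀ i ∈ s, HasT (f i) (a i)) :
    HasT (fun t => ∏ i ∈ s, f i t) (∏ i ∈ s, a i) := by
  classical
  induction s using Finset.induction_on with
  | empty => simpa using HasT.one
  | insert i s hi ih =>
    simp only [Finset.prod_insert hi]
    exact (hf i (Finset.mem_insert_self i s)).mul
      (ih (fun j hj => hf j (Finset.mem_insert_of_mem hj)))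

/-- Comparison of coefficients. -/
theorem HasT.coeff_eq {f g : ℂ → B} {a b : PowerSeries B} (hf : HasT f a) (hg : HasT g b)
    (N : ℕ) (h : (fun t => f t - g t) =O[𝓝 0] (fun t => t ^ N)) (m : ℕ) (hm : m < N) :
    PowerSeries.coeff m a = PowerSeries.coeff m b := by
  rw [← sub_eq_zero]
  set p : FormalMultilinearSeries ℂ ℂ B := fun n =>
    ContinuousMultilinearMap.mkPiRing ℂ (Fin n)
      (PowerSeries.coeff n a - PowerSeries.coeff n b) with hp
  have hpc : ∀ n, p.coeff n = PowerSeries.coeff n a - PowerSeries.coeff n b := by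
    intro n
    rw [hp]
    simp [FormalMultilinearSeries.coeff]
  have hps : HasFPowerSeriesAt (fun t => f t - g t) p 0 := by
    rw [hasFPowerSeriesAt_iff]
    unfold HasT at hf hg
    filter_upwards [hf, hg] with t ht1 ht2
    rw [zero_add]
    have h1 := ht1.2.sub ht2.2
    refine h1.congr_fun (fun n => ?_)
    rw [hpc, smul_sub]
  induction m using Nat.strong_induction_on with
  | _ m ih =>
    have h1 := hps.isBigO_sub_partialSum_pow (m + 1)
    simp only [zero_add] at h1
    have h2 : ∀ y : ℂ, p.partialSum (m + 1) y = y ^ m • (PowerSeries.coeff m a -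
        PowerSeries.coeff m b) := by
      intro y
      rw [FormalMultilinearSeries.partialSum, Finset.sum_range_succ, Finset.sum_eq_zero, zero_add]
      · rw [FormalMultilinearSeries.apply_eq_pow_smul_coeff, hpc]
      · intro k hk
        rw [FormalMultilinearSeries.apply_eq_pow_smul_coeff, hpc,
          ih k (Finset.mem_range.1 hk) (lt_trans (Finset.mem_range.1 hk) hm), smul_zero]
    have h3 : (fun t : ℂ => t ^ m • (PowerSeries.coeff m a - PowerSeries.coeff m b))
        =O[𝓝 0] (fun t : ℂ => t ^ (m + 1)) := by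
      have h4 : (fun t : ℂ => t ^ N) =O[𝓝 0] (fun t : ℂ => t ^ (m + 1)) := by
        refine Asymptotics.IsBigO.of_bound 1 ?_
        filter_upwards [Metric.ball_mem_nhds (0 : ℂ) one_pos] with t ht
        rw [norm_pow, norm_pow, one_mul]
        rw [mem_ball_zero_iff] at ht
        exact pow_le_pow_of_le_one (norm_nonneg t) ht.le hm
      have h5 : (fun y : ℂ => (f y - g y) - p.partialSum (m + 1) y) =O[𝓝 0]
          (fun t : ℂ => t ^ (m + 1)) := by
        refine h1.trans (Asymptotics.IsBigO.of_bound 1 (Eventually.of_forall (fun t => ?_)))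
        rw [norm_pow, norm_norm, norm_pow, one_mul]
      have h6 := (h.trans h4).sub h5
      refine h6.congr_left (fun t => ?_)
      rw [h2, sub_sub_cancel]
    obtain ⟨K, hK, h7⟩ := h3.exists_pos
    have h8 := h7.bound
    have h9 : ∀ᶠ t in 𝓝[≠] (0 : ℂ), ‖PowerSeries.coeff m a - PowerSeries.coeff m b‖ ≤ K * ‖t‖ := by
      filter_upwards [nhdsWithin_le_nhds h8, self_mem_nhdsWithin] with t ht ht0
      have ht1 : 0 < ‖t‖ := norm_pos_iff.2 ht0
      rw [norm_smul, norm_pow, norm_pow, pow_succ, ← mul_assoc, mul_comm K, mul_assoc] at ht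
      exact le_of_mul_le_mul_left ht (pow_pos ht1 m)
    have h10 : Tendsto (fun t : ℂ => K * ‖t‖) (𝓝[≠] (0 : ℂ)) (𝓝 0) := by
      have h11 : Tendsto (fun t : ℂ => K * ‖t‖) (𝓝 (0 : ℂ)) (𝓝 (K * ‖(0 : ℂ)‖)) :=
        (continuous_const.mul continuous_norm).tendsto _
      rw [norm_zero, mul_zero] at h11
      exact h11.mono_left nhdsWithin_le_nhds
    exact norm_le_zero_iff.1 (ge_of_tendsto h10 h9)

theorem HasT.unique {f : ℂ → B} {a b : PowerSeries B} (hf : HasT f a) (hg : HasT f b) :
    a = b := by
  ext m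
  refine hf.coeff_eq hg (m + 1) ?_ m (Nat.lt_succ_self m)
  simp only [sub_self]
  exact Asymptotics.isBigO_zero _ _

/-- The linear factor. -/
theorem HasT.lin (n : ℕ) (z : B) :
    HasT (fun t => 1 - t ^ n • z) (1 - PowerSeries.monomial n z) := by
  refine Eventually.of_forall (fun t => ?_)
  have h1 : ∀ m, t ^ m • PowerSeries.coeff m (1 - PowerSeries.monomial n z : PowerSeries B) =
      (if m = 0 then (1 : B) else 0) - (if m = n then t ^ n • z else 0) := by
    intro m
    rw [map_sub, PowerSeries.coeff_one, PowerSeries.coeff_monomial, smul_sub]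
    congr 1
    · by_cases h : m = 0
      · subst h
        simp
      · rw [if_neg h, smul_zero]
    · by_cases h : m = n
      · subst h
        simp
      · rw [if_neg h, smul_zero, if_neg h]
  simp only [h1]
  constructor
  · refine summable_of_ne_finset_zero (s := {0, n}) (fun m hm => ?_)
    simp only [Finset.mem_insert, Finset.mem_singleton, not_or] at hm
    rw [if_neg hm.1, if_neg hm.2, sub_zero, norm_zero]
  · exact (hasSum_ite_eq 0 (1 : B)).sub (hasSum_ite_eq n (t ^ n • z))

theorem HasT.inv [CompleteSpace B] (n : ℕ) (hn : 1 ≤ n) (z : B) :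
    HasT (fun t => Ring.inverse (1 - t ^ n • z))
      (PowerSeries.invOfUnit (1 - PowerSeries.monomial n z) 1) := by
  have h0 : (1 : B) - (0 : ℂ) ^ n • z = ((1 : Bˣ) : B) := by
    rw [zero_pow (by omega), zero_smul, sub_zero, Units.val_one]
  have hcont : ContinuousAt (fun t : ℂ => (1 : B) - t ^ n • z) 0 := by fun_prop
  have han : AnalyticAt ℂ (fun t : ℂ => Ring.inverse ((1 : B) - t ^ n • z)) 0 := by
    have h1 : AnalyticAt ℂ (fun t : ℂ => (1 : B) - t ^ n • z) 0 := by fun_prop
    have h2 : AnalyticAt ℂ (Ring.inverse : B → B) ((1 : B) - (0 : ℂ) ^ n • z) := by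
      rw [h0]
      exact analyticAt_inverse 1
    exact AnalyticAt.fun_comp (f := fun t : ℂ => (1 : B) - t ^ n • z) h2 h1
  obtain ⟨b, hb⟩ := HasT.of_analytic han
  have hmul := (HasT.lin n z).mul hb
  have hone : HasT (fun t : ℂ => (1 : B)) ((1 - PowerSeries.monomial n z) * b) := by
    refine hmul.congr ?_
    have h3 : ∀ᶠ u in 𝓝 ((1 : B) - (0 : ℂ) ^ n • z), IsUnit u := by
      rw [h0]
      exact Units.nhds 1
    filter_upwards [hcont.eventually h3] with t ht
    exact Ring.mul_inverse_cancel _ ht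
  have h4 := hone.unique HasT.one
  have h5 : PowerSeries.constantCoeff (1 - PowerSeries.monomial n z : PowerSeries B) =
      ((1 : Bˣ) : B) := by
    rw [map_sub, map_one, ← PowerSeries.coeff_zero_eq_constantCoeff_apply,
      PowerSeries.coeff_monomial, if_neg (by omega), sub_zero, Units.val_one]
  have h6 := PowerSeries.mul_invOfUnit _ _ h5
  have h7 : b = PowerSeries.invOfUnit (1 - PowerSeries.monomial n z) 1 := by
    calc b = ((1 - PowerSeries.monomial n z) * PowerSeries.invOfUnit
          (1 - PowerSeries.monomial n z) 1) * b := by rw [h6, one_mul]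
      _ = PowerSeries.invOfUnit (1 - PowerSeries.monomial n z) 1 *
          ((1 - PowerSeries.monomial n z) * b) := by ring
      _ = _ := by rw [h4, mul_one]
  rw [← h7]
  exact hb

end Pool.Agent.Y968.KI
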