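import Pool.Agent.Y968.KI.HasT
import Pool.Agent.Y80.KI.Defs

/-!
# Project KI: the logarithm in a commutative Banach algebra
-/

set_option autoImplicit false

open scoped Topology
open Filter

namespace Pool.Agent.Y968.KI

variable {B : Type*} [NormedCommRing B] [NormedAlgebra ℂ B] [CompleteSpace B]

/-- `- log (1 - w)` -/
noncomputable def Lg (w : B) : B := ∑' k : ℕ, ((1 : ℂ) / ((k : ℂ) + 1)) • w ^ (k + 1)

theorem norm_pow_succ_le (w : B) (k : ℕ) : ‖w ^ (k + 1)‖ ≤ ‖w‖ ^ (k + 1) :=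
  norm_pow_le' w (Nat.succ_pos k)

theorem norm_inv_succ (k : ℕ) : ‖((1 : ℂ) / ((k : ℂ) + 1))‖ ≤ 1 := by
  have h : ((k : ℂ) + 1) = ((k + 1 : ℕ) : ℂ) := by push_cast; ring
  rw [h, norm_div, norm_one, Complex.norm_natCast]
  rw [div_le_one (by positivity)]
  exact_mod_cast Nat.succ_pos k

theorem exp_Lg (w : B) (hw : ‖w‖ < 1) : NormedSpace.exp (Lg w) * (1 - w) = 1 := by
  set R : ℝ := 2 / (1 + ‖w‖) with hR
  have hpos : 0 < 1 + ‖w‖ := by positivity
  have hR1 : 1 < R := by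
    rw [hR, lt_div_iff₀ hpos]
    linarith
  have hRw : R * ‖w‖ < 1 := by
    rw [hR, div_mul_eq_mul_div, div_lt_one hpos]
    linarith
  have hR0 : 0 < R := lt_trans one_pos hR1
  let g : ℕ → ℂ → B := fun k s => (s ^ (k + 1) / ((k : ℂ) + 1)) • w ^ (k + 1)
  let g' : ℕ → ℂ → B := fun k s => s ^ k • w ^ (k + 1)
  have hne : ∀ k : ℕ, ((k : ℂ) + 1) ≠ 0 := fun k => Nat.cast_add_one_ne_zero k
  have hg : ∀ k, ∀ s ∈ Metric.ball (0 : ℂ) R, HasDerivAt (g k) (g' k s) s := by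
    intro k s _
    have h1 : HasDerivAt (fun s : ℂ => s ^ (k + 1) / ((k : ℂ) + 1)) (s ^ k) s := by
      have h2 := (hasDerivAt_pow (k + 1) s).div_const ((k : ℂ) + 1)
      refine h2.congr_deriv ?_
      rw [Nat.add_sub_cancel]
      push_cast
      field_simp [hne k]
    exact h1.smul_const (w ^ (k + 1))
  have hu : Summable (fun k : ℕ => (R * ‖w‖) ^ k * ‖w‖) :=
    (summable_geometric_of_lt_one (by positivity) hRw).mul_right _
  have hg' : ∀ k, ∀ s ∈ Metric.ball (0 : ℂ) R, ‖g' k s‖ ≤ (R * ‖w‖) ^ k * ‖w‖ := by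
    intro k s hs
    rw [mem_ball_zero_iff] at hs
    calc ‖g' k s‖ ≤ ‖s ^ k‖ * ‖w ^ (k + 1)‖ := norm_smul_le _ _
      _ ≤ R ^ k * ‖w‖ ^ (k + 1) := by
          rw [norm_pow]
          exact mul_le_mul (pow_le_pow_left₀ (norm_nonneg s) hs.le k) (norm_pow_succ_le w k)
            (norm_nonneg _) (by positivity)
      _ = (R * ‖w‖) ^ k * ‖w‖ := by rw [mul_pow, pow_succ]; ring
  have h0mem : (0 : ℂ) ∈ Metric.ball (0 : ℂ) R := Metric.mem_ball_self hR0
  have h1mem : (1 : ℂ) ∈ Metric.ball (0 : ℂ) R := by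
    rw [mem_ball_zero_iff, norm_one]
    exact hR1
  have hg0 : Summable (fun k => g k 0) := by
    have : (fun k => g k 0) = fun _ => 0 := by
      funext k
      change ((0 : ℂ) ^ (k + 1) / ((k : ℂ) + 1)) • w ^ (k + 1) = 0
      rw [zero_pow (Nat.succ_ne_zero k), zero_div, zero_smul]
    rw [this]
    exact summable_zero
  have hL : ∀ s ∈ Metric.ball (0 : ℂ) R, HasDerivAt (fun s => ∑' k, g k s) (∑' k, g' k s) s :=
    fun s hs => hasDerivAt_tsum_of_isPreconnected hu Metric.isOpen_ball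
      (convex_ball (0 : ℂ) R).isPreconnected hg hg' h0mem hg0 hs
  have hM : ∀ s ∈ Metric.ball (0 : ℂ) R, (∑' k, g' k s) * (1 - s • w) = w := by
    intro s hs
    have hsw : ‖s • w‖ < 1 := by
      rw [mem_ball_zero_iff] at hs
      calc ‖s • w‖ ≤ ‖s‖ * ‖w‖ := norm_smul_le _ _
        _ ≤ R * ‖w‖ := mul_le_mul_of_nonneg_right hs.le (norm_nonneg w)
        _ < 1 := hRw
    have h1 : ∀ k, g' k s = w * (s • w) ^ k := by
      intro k
      change s ^ k • w ^ (k + 1) = _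
      rw [smul_pow, mul_smul_comm, pow_succ']
    simp only [h1]
    rw [Summable.tsum_mul_left w (summable_geometric_of_norm_lt_one hsw), mul_assoc,
      geom_series_mul_neg _ hsw, mul_one]
  have hφ : ∀ s ∈ Metric.ball (0 : ℂ) R,
      HasDerivAt (fun s : ℂ => NormedSpace.exp (∑' k, g k s) * (1 - s • w)) 0 s := by
    intro s hs
    have h1 : HasDerivAt (fun s : ℂ => NormedSpace.exp (∑' k, g k s))
        (NormedSpace.exp (∑' k, g k s) * ∑' k, g' k s) s := by
      have h2 := (hasFDerivAt_exp (𝕂 := ℂ) (x := ∑' k, g k s)).comp_hasDerivAt s (hL s hs)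
      refine h2.congr_deriv ?_
      simp
    have h3 : HasDerivAt (fun s : ℂ => (1 : B) - s • w) (-w) s := by
      have h4 := ((hasDerivAt_id s).smul_const w).const_sub (1 : B)
      simpa using h4
    have h5 := h1.mul h3
    have h6 : NormedSpace.exp (∑' k, g k s) * (∑' k, g' k s) * (1 - s • w) +
        NormedSpace.exp (∑' k, g k s) * (-w) = 0 := by
      rw [mul_assoc, hM s hs]
      ring
    rw [h6] at h5
    exact h5
  have hconst := IsOpen.is_const_of_deriv_eq_zero (𝕜 := ℂ)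
    (f := fun s : ℂ => NormedSpace.exp (∑' k, g k s) * (1 - s • w)) Metric.isOpen_ball
    (convex_ball (0 : ℂ) R).isPreconnected
    (fun s hs => (hφ s hs).differentiableAt.differentiableWithinAt)
    (fun s hs => (hφ s hs).deriv) h1mem h0mem
  have h7 : (∑' k, g k 1) = Lg w := by
    unfold Lg
    refine tsum_congr (fun k => ?_)
    change ((1 : ℂ) ^ (k + 1) / ((k : ℂ) + 1)) • w ^ (k + 1) = _
    rw [one_pow]
  have h8 : (∑' k, g k 0) = 0 := by
    have : (fun k => g k 0) = fun _ => 0 := by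
      funext k
      change ((0 : ℂ) ^ (k + 1) / ((k : ℂ) + 1)) • w ^ (k + 1) = 0
      rw [zero_pow (Nat.succ_ne_zero k), zero_div, zero_smul]
    rw [this, tsum_zero]
  rw [h7, h8, one_smul, zero_smul, NormedSpace.exp_zero, sub_zero, mul_one] at hconst
  exact hconst

theorem exp_neg_Lg (w : B) (hw : ‖w‖ < 1) : NormedSpace.exp (-Lg w) = 1 - w := by
  have h1 := exp_Lg w hw
  have h2 : NormedSpace.exp (-Lg w) * NormedSpace.exp (Lg w) = 1 := by
    letI : NormedAlgebra ℚ B := NormedAlgebra.restrictScalars ℚ ℂ B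
    rw [← NormedSpace.exp_add, neg_add_cancel, NormedSpace.exp_zero]
  calc NormedSpace.exp (-Lg w) = NormedSpace.exp (-Lg w) * (NormedSpace.exp (Lg w) * (1 - w)) := by
        rw [h1, mul_one]
    _ = (NormedSpace.exp (-Lg w) * NormedSpace.exp (Lg w)) * (1 - w) := by ring
    _ = 1 - w := by rw [h2, one_mul]

theorem inverse_eq (w : B) (hw : ‖w‖ < 1) : Ring.inverse (1 - w) = NormedSpace.exp (Lg w) := by
  have h1 := exp_Lg w hw
  have h2 : Ring.inverse (((⟨1 - w, NormedSpace.exp (Lg w), by rw [mul_comm]; exact h1, h1⟩ : Bˣ) :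
      B)) = _ := Ring.inverse_unit _
  exact h2

theorem hasSum_Lg (w : B) (hw : ‖w‖ < 1) :
    HasSum (fun k : ℕ => ((1 : ℂ) / ((k : ℂ) + 1)) • w ^ (k + 1)) (Lg w) := by
  have h1 : Summable (fun k : ℕ => ((1 : ℂ) / ((k : ℂ) + 1)) • w ^ (k + 1)) := by
    refine Summable.of_norm_bounded (g := fun k => ‖w‖ ^ (k + 1)) ?_ (fun k => ?_)
    · exact (summable_nat_add_iff 1).2 (summable_geometric_of_lt_one (norm_nonneg w) hw)
    · calc ‖((1 : ℂ) / ((k : ℂ) + 1)) • w ^ (k + 1)‖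
          ≤ ‖((1 : ℂ) / ((k : ℂ) + 1))‖ * ‖w ^ (k + 1)‖ := norm_smul_le _ _
        _ ≤ 1 * ‖w‖ ^ (k + 1) := mul_le_mul (norm_inv_succ k) (norm_pow_succ_le w k)
            (norm_nonneg _) zero_le_one
        _ = ‖w‖ ^ (k + 1) := one_mul _
  exact h1.hasSum

open Pool.Agent.Y80.KI

/-- Taylor expansion of the powers of the factors. -/
theorem HasT.ipw (n : ℕ) (hn : 1 ≤ n) (z : B) (a : ℤ) :
    HasT (fun t => NormedSpace.exp (a • (-Lg (t ^ n • z))))
      (ipw (1 - PowerSeries.monomial n z) a) := by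
  have hnear : ∀ᶠ t in 𝓝 (0 : ℂ), ‖t ^ n • z‖ < 1 := by
    have hc : ContinuousAt (fun t : ℂ => ‖t ^ n • z‖) 0 := by fun_prop
    have h0 : ‖(0 : ℂ) ^ n • z‖ < 1 := by
      rw [zero_pow (by omega), zero_smul, norm_zero]
      exact one_pos
    exact hc.eventually (gt_mem_nhds h0)
  letI : NormedAlgebra ℚ B := NormedAlgebra.restrictScalars ℚ ℂ B
  unfold Pool.Agent.Y80.KI.ipw
  by_cases ha : 0 ≤ a
  · rw [if_pos ha]
    refine ((HasT.lin n z).pow a.toNat).congr ?_
    filter_upwards [hnear] with t ht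
    rw [← exp_neg_Lg _ ht, ← NormedSpace.exp_nsmul, ← natCast_zsmul, Int.toNat_of_nonneg ha]
  · rw [if_neg ha]
    refine ((HasT.inv n hn z).pow (-a).toNat).congr ?_
    filter_upwards [hnear] with t ht
    rw [inverse_eq _ ht, ← NormedSpace.exp_nsmul, ← natCast_zsmul,
      Int.toNat_of_nonneg (by omega), neg_smul, smul_neg]

theorem HasT.fprod {ι : Type*} [Fintype ι] (z : ι → B) (A : ℕ → ℤ) (N0 : ℕ) :
    HasT (fun t => NormedSpace.exp (∑ n ∈ Finset.Icc 1 N0, ∑ i, A n • (-Lg (t ^ n • z i))))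
      (fprod z A N0) := by
  letI : NormedAlgebra ℚ B := NormedAlgebra.restrictScalars ℚ ℂ B
  unfold Pool.Agent.Y80.KI.fprod
  have h1 := HasT.prod (Finset.Icc 1 N0)
    (f := fun n t => ∏ i, NormedSpace.exp (A n • (-Lg (t ^ n • z i))))
    (a := fun n => ∏ i, Pool.Agent.Y80.KI.ipw (1 - PowerSeries.monomial n (z i)) (A n))
    (fun n hn => HasT.prod Finset.univ (fun i _ => HasT.ipw n (Finset.mem_Icc.1 hn).1 (z i) (A n)))
  refine h1.congr (Eventually.of_forall (fun t => ?_))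
  simp only [NormedSpace.exp_sum]

end Pool.Agent.Y968.KI
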